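import Pool.Agent.QUD.StmtsL

/-!
# Squad QUD, row PT1 (MP_5b0138_an)

The triples of sides near the first level.  `fin_min` and `ev_body` are copies of the lemmas of `Helper5_PM.M150`.
-/

set_option autoImplicit false

namespace Pool.Agent.QUD.H87

open MeasureTheory Complex Filter Topology Pool.Agent.H62T
open Pool.Agent.H16F (Sublin)
open Pool.Agent.AEU Pool.Agent.XQ

/-- the minimum of finitely many positive numbers -/
theorem fin_min {α : Type} (A : Finset α) (C : α → ℝ → Prop)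
    (mono : ∀ a δ δ', δ' ≤ δ → C a δ → C a δ') (h : ∀ a ∈ A, ∃ δ > 0, C a δ) :
    ∃ δ > 0, ∀ a ∈ A, C a δ := by
  classical
  induction A using Finset.induction_on with
  | empty => exact ⟨1, one_pos, by simp⟩
  | insert a A ha ih =>
    obtain ⟨δ, hδ, h1⟩ := ih fun b hb => h b (Finset.mem_insert_of_mem hb)
    obtain ⟨δ', hδ', h2⟩ := h a (Finset.mem_insert_self a A)
    refine ⟨min δ δ', lt_min hδ hδ', fun b hb => ?_⟩
    rcases Finset.mem_insert.1 hb with rfl | hb
    · exact mono _ _ _ (min_le_right _ _) h2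
    · exact mono _ _ _ (min_le_left _ _) (h1 b hb)

theorem ev_body (hl : LamStatement) {h : ℂ → ℝ} (hs : Sublin h) {σ : ℝ} (h0 : 0 < σ) (h1 : σ ≤ 1)
    (x : ℂ) :
    Sublin (fun w => σ * h w + ip w x) ∧ lam (fun w => σ * h w + ip w x) ≤ lam h := by
  constructor
  · constructor
    · intro a b
      have := hs.1 a b
      have e : ip (a + b) x = ip a x + ip b x := by
        simp only [ip, Complex.add_re, Complex.add_im]; ring
      show σ * h (a + b) + ip (a + b) x ≤ (σ * h a + ip a x) + (σ * h b + ip b x)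
      rw [e]
      nlinarith
    · intro t a ht
      have := hs.2 t a ht
      have e : ip ((t : ℂ) * a) x = t * ip a x := by
        simp only [ip, Complex.mul_re, Complex.mul_im, Complex.ofReal_re, Complex.ofReal_im]; ring
      show σ * h (t * a) + ip (t * a) x = t * (σ * h a + ip a x)
      rw [e, this]
      ring
  · have e := hl.1 h h hs hs σ 0 x
    have e' : lam (fun w => σ * h w + ip w x) = σ * lam h := by
      have : (fun w => σ * h w + ip w x) = fun w => σ * h w + 0 * h w + ip w x := by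
        funext w; ring
      rw [this, e]; ring
    have h0' := hl.2.2.1 h hs
    rw [e']
    nlinarith

theorem not_tb (c : Finset HP → HP → ℝ) (S : Finset HP) :
    ¬ TB (∅ : Finset (Finset HP)) c S := by
  rintro ⟨F, hF, -⟩
  exact absurd hF (Finset.notMem_empty F)

theorem rlx_empty (X S : Finset HP) (c : Finset HP → HP → ℝ) :
    rlx X (∅ : Finset (Finset HP)) c S = X := by
  have e : er X (∅ : Finset (Finset HP)) c S = ∅ := by
    unfold er
    refine Finset.eq_empty_of_forall_notMem fun t ht => ?_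
    obtain ⟨-, -, h, -⟩ := Finset.mem_filter.1 ht
    exact absurd h (Finset.notMem_empty _)
  unfold rlx
  rw [e]
  simp

open Classical in
theorem mem_N1 {X : Finset HP} {L : ℝ} {S : Finset HP} :
    S ∈ N1 X L ↔ S ∈ X.powersetCard 3 ∧ Np S ∧ Le X S L := by
  unfold N1
  rw [Finset.mem_filter]

/-- **PT1** -/
theorem pt1 (thr : ThrStmt) (prl : PrlStmt) (exx : ExxStatement) (utx : UtxStatement)
    (lm : LamStatement) : Pt1Stmt := by
  classical
  intro X L pg hL hB
  obtain ⟨hpar, hface⟩ := prl X L pg hL hB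
  obtain ⟨δ₁, hδ₁, h1⟩ := fin_min (N1 X L)
    (fun S δ => ∀ h, Sublin h → lam h < L + δ → (Ev X S h ↔ EvL S h))
    (fun S δ δ' hd h1 h hs hl => h1 h hs (by linarith)) (fun S hS => by
      obtain ⟨hS1, hS2, hS3⟩ := mem_N1.1 hS
      obtain ⟨hS6, hS7⟩ := Finset.mem_powersetCard.1 hS1
      obtain ⟨δ, hδ, hE⟩ := exx X (fun s hs => pg.unit s hs) S L hS6 hS7 hS2 hS3
        (fun h hs hF hS hl => by
          have hc := thr X L pg hB h hs hF hl
          exact (Finset.eq_of_subset_of_card_le hS (by omega)).symm)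
      exact ⟨δ, hδ, AEU.H51.evn lm _ S L δ hS6 hE⟩)
  obtain ⟨δ₂, hδ₂, h2⟩ := fin_min ((X.powersetCard 3).filter fun S => ¬ Le X S L)
    (fun S δ => ∀ h, Sublin h → Fits X h → S ⊆ touch X h → L + δ ≤ lam h)
    (fun S δ δ' hd h1 h hs hf hS => by linarith [h1 h hs hf hS]) (fun S hS => by
      obtain ⟨hS1, hS2⟩ := Finset.mem_filter.1 hS
      obtain ⟨hS6, hS7⟩ := Finset.mem_powersetCard.1 hS1
      exact utx X pg S L hS6 hS7 hS2)
  obtain ⟨δ₄, hδ₄, h4⟩ := fin_min ((X ×ˢ X).filter fun p => p.1 ≠ p.2 ∧ dt p.1.1 p.2.1 = 0 ∧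
      ¬ FacePair X L p.1 p.2)
    (fun p δ => ∀ h, Sublin h → Fits X h → lam h < L + δ → ¬ (p.1 ∈ touch X h ∧ p.2 ∈ touch X h))
    (fun S δ δ' hd h1 h hs hf hl => h1 h hs hf (by linarith)) (fun p hp => by
      obtain ⟨h1, h2, h3, h4⟩ := Finset.mem_filter.1 hp
      obtain ⟨h5, h6⟩ := Finset.mem_product.1 h1
      exact hpar p.1 h5 p.2 h6 h2 h3 h4)
  refine ⟨min (min δ₁ δ₂) δ₄, lt_min (lt_min hδ₁ hδ₂) hδ₄, ?_⟩
  have e1 : min (min δ₁ δ₂) δ₄ ≤ δ₁ := (min_le_left _ _).trans (min_le_left _ _)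
  have e2 : min (min δ₁ δ₂) δ₄ ≤ δ₂ := (min_le_left _ _).trans (min_le_right _ _)
  have e4 : min (min δ₁ δ₂) δ₄ ≤ δ₄ := min_le_right _ _
  refine
    { sM := ?_, sN := ?_, nM := ?_, nN := ?_, torn := ?_, dMN := ?_, dM := ?_, dN := ?_,
      tin := ?_, tinj := ?_, loc := ?_, out := ?_, far := ?_, par := ?_, face := hface }
  · exact Finset.empty_subset _
  · intro S hS
    exact (mem_N1.1 hS).1
  · intro S hS
    exact absurd hS (Finset.notMem_empty S)
  · intro S hS
    exact (mem_N1.1 hS).2.1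
  · intro F hF
    exact absurd hF (Finset.notMem_empty F)
  · exact Finset.disjoint_empty_left _
  · intro S hS
    exact not_tb _ S
  · intro S hS
    exact not_tb _ S
  · intro F hF
    exact absurd hF (Finset.notMem_empty F)
  · intro F hF
    exact absurd hF (Finset.notMem_empty F)
  · intro S hS h hs hl
    rw [rlx_empty]
    exact h1 S hS h hs (by linarith)
  · rintro S hS hNp - hSN - h hs hl ⟨σ, x, h0, h01, hf, ht⟩
    obtain ⟨hb1, hb2⟩ := ev_body lm hs h0 h01 x
    have hnl : ¬ Le X S L := fun hL => hSN (mem_N1.2 ⟨hS, hNp, hL⟩)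
    have := h2 S (Finset.mem_filter.2 ⟨hS, hnl⟩) _ hb1 hf (by rw [ht])
    linarith
  · intro F hF
    exact absurd hF (Finset.notMem_empty F)
  · intro a ha a' ha' hne hd hfp h hs hf hl
    exact h4 (a, a') (Finset.mem_filter.2 ⟨Finset.mem_product.2 ⟨ha, ha'⟩, hne, hd, hfp⟩) h hs hf
      (by linarith)

end Pool.Agent.QUD.H87
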